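import Mathlib
import Pool.Agent.H51.FiveA

set_option autoImplicit false

namespace Pool.Agent.Results.MP_05966f_nt.Lower

/-- the `5x+1` map -/
def T5 (n : ℤ) : ℤ := if n % 2 = 0 then n / 2 else (5 * n + 1) / 2

/-- number of integers in `[1, x]` whose forward orbit contains `1` -/
noncomputable def N5 (x : ℝ) : ℕ :=
  Set.ncard {n : ℤ | 1 ≤ n ∧ (n : ℝ) ≤ x ∧ ∃ k : ℕ, T5^[k] n = 1}

theorem result : ∃ c : ℝ, 0 < c ∧ ∀ x : ℝ, 1 ≤ x → c * x ^ (43 / 100 : ℝ) ≤ (N5 x : ℝ) :=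
  ⟨1 / 4194304, by norm_num, fun x hx =>
    Pool.Agent.H51.FiveA.bound x hx _ (fun _ h => ⟨h.1, h.2.1⟩) fun _ h1 h2 h3 => ⟨h1, h2, h3⟩⟩

end Pool.Agent.Results.MP_05966f_nt.Lower
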